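import Pool.Agent.Lib_helper52.LQ.Defs
import Pool.Agent.Lib_helper53.LQ.N1
import Pool.Agent.Lib_helper49.LQ.N2
import Pool.Agent.Lib_helper49.LQ.N3
import Pool.Agent.Lib_helper59.LQ.E2
import Pool.Agent.Lib_helper90.LQ.R1
import Pool.Agent.Lib_helper16.LQ.R2
import Pool.Agent.Lib_helper86.LQ.R3

set_option autoImplicit false

namespace Pool.Agent.LQ

open MeasureTheory ENNReal Set Filter Topology Pool.Agent.EPS Pool.Agent.YG

variable {d : ℕ}

/-- the tilt with the minus sign -/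
theorem ez_neg (α γ : Measure (Eu d)) [IsProbabilityMeasure α] [IsProbabilityMeasure γ]
    (k κ : Eu d → ℝ) (hk : Measurable k) (h : Rg α γ k κ) (M s : ℝ) (hM : ∀ z, |k z| ≤ M)
    (hs : |s| * M ≤ 1) : α.conv (tl γ (fun z => 1 - s * k z)) =
      tl (α.conv γ) (fun u => 1 - s * κ u) := by
  have h1 := conv_tl α γ k κ hk h M (-s) hM (by rw [abs_neg]; exact hs)
  have e1 : (fun z => 1 + -s * k z) = (fun z => 1 - s * k z) := by
    funext z
    ring
  have e2 : (fun u => 1 + -s * κ u) = (fun u => 1 - s * κ u) := by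
    funext u
    ring
  rw [e1, e2] at h1
  exact h1

/-- `ent_pm` for `α.conv γ`, `β.conv γ`, `(α.conv β).conv γ`, `γ` and `conv_tl` -/
theorem e_z (θ : ℝ) (h0 : 0 < θ) (h1 : θ < 1) (α β γ : Measure (Eu d)) (hα : Nc α) (hβ : Nc β)
    (hγ : Nc γ) (k κU κV κW : Eu d → ℝ) (hk : Measurable k) (M s : ℝ) (hM : ∀ z, |k z| ≤ M)
    (hk0 : ∫ z, k z ∂γ = 0) (hU : Rg α γ k κU) (hV : Rg β γ k κV)
    (hW : Rg (α.conv β) γ k κW) (hs : 0 < s) (hsM : s * M ≤ 1 / 2) :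
    SS θ α β (tl γ (fun z => 1 + s * k z)) + SS θ α β (tl γ (fun z => 1 - s * k z)) ≤
      2 * SS θ α β γ + s ^ 2 * (θ * (∫ z, k z ^ 2 ∂γ + ∫ w, κW w ^ 2 ∂((α.conv β).conv γ)) -
        (∫ u, κU u ^ 2 ∂(α.conv γ) + ∫ v, κV v ^ 2 ∂(β.conv γ))) + 2 * θ * (s ^ 4 * M ^ 4) := by
  have iα : IsProbabilityMeasure α := hα.1
  have iβ : IsProbabilityMeasure β := hβ.1
  have iγ : IsProbabilityMeasure γ := hγ.1
  have hUc := nc_conv hα hγ
  have hVc := nc_conv hβ hγ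
  have hAB := nc_conv hα hβ
  have hWc := nc_conv hAB hγ
  have iU : IsProbabilityMeasure (α.conv γ) := hUc.1
  have iV : IsProbabilityMeasure (β.conv γ) := hVc.1
  have iAB : IsProbabilityMeasure (α.conv β) := hAB.1
  have iW : IsProbabilityMeasure ((α.conv β).conv γ) := hWc.1
  have hs1 : |s| * M ≤ 1 := by
    rw [abs_of_pos hs]
    linarith
  have mean1 := rg_mean α γ k κU hU
  have mean2 := rg_mean β γ k κV hV
  have mean3 := rg_mean (α.conv β) γ k κW hW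
  rw [hk0] at mean1 mean2 mean3
  have t1 := (ent_pm (nc_fin hUc) κU hU.meas M s (hU.bd M hM) hs.le hsM mean1).1
  have t2 := (ent_pm (nc_fin hVc) κV hV.meas M s (hV.bd M hM) hs.le hsM mean2).1
  have t3 := (ent_pm (nc_fin hWc) κW hW.meas M s (hW.bd M hM) hs.le hsM mean3).2
  have t4 := (ent_pm (nc_fin hγ) k hk M s hM hs.le hsM hk0).2
  rw [← conv_tl α γ k κU hk hU M s hM hs1, ← ez_neg α γ k κU hk hU M s hM hs1] at t1
  rw [← conv_tl β γ k κV hk hV M s hM hs1, ← ez_neg β γ k κV hk hV M s hM hs1] at t2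
  rw [← conv_tl (α.conv β) γ k κW hk hW M s hM hs1,
    ← ez_neg (α.conv β) γ k κW hk hW M s hM hs1] at t3
  unfold SS
  have q0 := mul_le_mul_of_nonneg_left (add_le_add t3 t4) h0.le
  linarith [t1, t2, q0]

end Pool.Agent.LQ
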